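import Pool.Agent.Y379.KG.Desc
import Pool.Agent.Y192.KC.SStm

/-!
A minimal group of characters (task KS1 of the project on covers of projective varieties).
-/

set_option autoImplicit false

namespace Pool.Agent.Y438.KS

open Pool.Agent.Y192.OG Pool.Agent.Y192.KC Pool.Agent.Y379.KG

section lin

variable {ρ N : ℕ}

/-- the linear form with the coefficients `l` -/
noncomputable def lf (l : Fin ρ → ℤ) : (Fin ρ → ℤ) →ₗ[ℤ] ℤ := Fintype.linearCombination ℤ l

theorem lf_apply (l m : Fin ρ → ℤ) : lf l m = ∑ i, l i * m i := by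
  show ∑ i, m i • l i = _
  refine Finset.sum_congr rfl fun i _ => ?_
  rw [smul_eq_mul, mul_comm]

theorem wpart_eq (l : Fin ρ → ℤ) (g : Lau ρ) :
    wpart l 0 g = comp (LinearMap.ker (lf l)) ((LinearMap.ker (lf l)).mkQ 0) g := by
  classical
  apply AddMonoidAlgebra.coeff_injective
  ext m
  rw [comp_coeff]
  unfold wpart
  rw [AddMonoidAlgebra.coeff_ofCoeff, Finsupp.filter_apply]
  have h : (∑ i, l i * m i = 0) ↔
      (LinearMap.ker (lf l)).mkQ m = (LinearMap.ker (lf l)).mkQ 0 := by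
    rw [mkQ_eq_iff, sub_zero, LinearMap.mem_ker, lf_apply]
  by_cases h1 : ∑ i, l i * m i = 0
  · rw [if_pos h1, if_pos (h.1 h1)]
  · rw [if_neg h1, if_neg (fun h2 => h1 (h.2 h2))]

/-- products with an element with support in the subgroup -/
theorem comp_mul_left (Γ : Submodule ℤ (Fin ρ → ℤ)) {p : Lau ρ}
    (hp : ∀ m ∈ p.coeff.support, m ∈ Γ) (q : (Fin ρ → ℤ) ⧸ Γ) (h : Lau ρ) :
    comp Γ q (p * h) = p * comp Γ q h := by
  have hp' : p = ∑ m ∈ p.coeff.support, AddMonoidAlgebra.single m (p.coeff m) := by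
    conv_lhs => rw [← AddMonoidAlgebra.sum_coeff_single p]
    rfl
  have key : ∀ m ∈ Γ, ∀ c : ℂ, comp Γ q ((AddMonoidAlgebra.single m c : Lau ρ) * h) =
      AddMonoidAlgebra.single m c * comp Γ q h := by
    intro m hm c
    induction h using AddMonoidAlgebra.induction_linear with
    | zero => rw [mul_zero, comp_zero, mul_zero]
    | add f g hf hg => rw [mul_add, comp_add, comp_add, hf, hg, mul_add]
    | single b d =>
      rw [AddMonoidAlgebra.single_mul_single]
      have h1 : Γ.mkQ (m + b) = Γ.mkQ b := by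
        rw [mkQ_eq_iff, add_sub_cancel_right]; exact hm
      by_cases hb : Γ.mkQ b = q
      · rw [comp_single_pos Γ hb, comp_single_pos Γ (h1.trans hb),
          AddMonoidAlgebra.single_mul_single]
      · rw [comp_single_neg Γ hb, comp_single_neg Γ (by rw [h1]; exact hb), mul_zero]
  rw [hp', Finset.sum_mul, comp_sum', Finset.sum_mul]
  exact Finset.sum_congr rfl fun m hm => key m (hp m hm) _

theorem comp_of_supp (Γ : Submodule ℤ (Fin ρ → ℤ)) {p : Lau ρ}
    (hp : ∀ m ∈ p.coeff.support, m ∈ Γ) : comp Γ (Γ.mkQ 0) p = p := by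
  classical
  apply AddMonoidAlgebra.coeff_injective
  ext m
  rw [comp_coeff]
  split_ifs with h
  · rfl
  · by_contra hne
    apply h
    rw [mkQ_eq_iff, sub_zero]
    exact hp m (Finsupp.mem_support_iff.2 (fun h0 => hne h0.symm))

/-- elements with support in a subgroup form a subring -/
theorem supp_mul (Γ : Submodule ℤ (Fin ρ → ℤ)) {p q : Lau ρ}
    (hp : ∀ m ∈ p.coeff.support, m ∈ Γ) (hq : ∀ m ∈ q.coeff.support, m ∈ Γ) :
    ∀ m ∈ (p * q).coeff.support, m ∈ Γ := by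
  intro m hm
  have h1 : comp Γ (Γ.mkQ 0) (p * q) = p * q := by
    rw [comp_mul_left Γ hp, comp_of_supp Γ hq]
  rw [← h1] at hm
  have h2 := (comp_supp Γ _ _ m hm).1
  rw [mkQ_eq_iff, sub_zero] at h2
  exact h2

theorem supp_pow (Γ : Submodule ℤ (Fin ρ → ℤ)) {p : Lau ρ}
    (hp : ∀ m ∈ p.coeff.support, m ∈ Γ) (k : ℕ) :
    ∀ m ∈ (p ^ k).coeff.support, m ∈ Γ := by
  induction k with
  | zero =>
    intro m hm
    rw [pow_zero] at hm
    have h1 : (1 : Lau ρ) = AddMonoidAlgebra.single 0 1 := rfl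
    rw [h1, AddMonoidAlgebra.coeff_single] at hm
    have h2 := Finsupp.support_single_subset hm
    rw [Finset.mem_singleton] at h2
    rw [h2]
    exact Γ.zero_mem
  | succ k ih => rw [pow_succ]; exact supp_mul Γ ih hp

theorem LL_comp (γ : Fin ρ → Fin N → ℤ) {ρ' : ℕ} (δ : Fin ρ' → Fin ρ → ℤ) (a : Fin ρ' → ℤ) :
    LL (fun i => LL γ (δ i)) a = LL γ (LL δ a) := by
  rw [LL_apply, LL_apply δ, map_sum]
  refine Finset.sum_congr rfl fun i _ => ?_
  rw [map_smul]

theorem lm_lm (γ : Fin ρ → Fin N → ℤ) {ρ' : ℕ} (δ : Fin ρ' → Fin ρ → ℤ) (g : Lau ρ') :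
    lm (fun i => LL γ (δ i)) g = lm γ (lm δ g) := by
  induction g using AddMonoidAlgebra.induction_linear with
  | zero => rw [map_zero, map_zero, map_zero]
  | add f g hf hg => rw [map_add, map_add, map_add, hf, hg]
  | single a c => rw [lm_single, lm_single, lm_single, LL_comp]

theorem LL_id (a : Fin N → ℤ) : LL (fun i => Pi.single i (1 : ℤ)) a = a := by
  rw [LL_apply]
  funext k
  rw [Finset.sum_apply]
  simp [Pi.single_apply]

theorem lm_id (g : Lau N) : lm (fun i => Pi.single i (1 : ℤ)) g = g := by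
  induction g using AddMonoidAlgebra.induction_linear with
  | zero => rw [map_zero]
  | add f g hf hg => rw [map_add, hf, hg]
  | single a c => rw [lm_single, LL_id]

end lin

section hom

variable {ρ N : ℕ} {K : Type} [Field K] [Algebra ℂ K]

/-- homogeneity for subgroups of subgroups -/
theorem hom_map (x : Fin N → Kˣ) (Γ : Submodule ℤ (Fin N → ℤ)) (γ : Fin ρ → Fin N → ℤ)
    (hΓ : ∀ m, m ∈ Γ ↔ ∃ a, LL γ a = m) (hinj : ∀ a, LL γ a = 0 → a = 0)
    (hhom : ∀ g ∈ RingHom.ker (ep x), ∀ q, comp Γ q g ∈ RingHom.ker (ep x))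
    (Λ : Submodule ℤ (Fin ρ → ℤ))
    (hΛ : ∀ g ∈ RingHom.ker (ep fun i => xm x (γ i)),
      comp Λ (Λ.mkQ 0) g ∈ RingHom.ker (ep fun i => xm x (γ i))) :
    ∀ g ∈ RingHom.ker (ep x), ∀ q, comp (Λ.map (LL γ)) q g ∈ RingHom.ker (ep x) := by
  have hLeq : ∀ a a', LL γ a = LL γ a' → a = a' := by
    intro a a' h
    have := hinj (a - a') (by rw [map_sub, h, sub_self])
    exact sub_eq_zero.mp this
  have hΓ3 : ∀ a, a ∈ Λ ↔ LL γ a ∈ Λ.map (LL γ) := by
    intro a
    constructor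
    · intro ha
      exact Submodule.mem_map_of_mem ha
    · rintro ⟨a', ha', haa⟩
      rw [← hLeq a' a haa]
      exact ha'
  have h3le : Λ.map (LL γ) ≤ Γ := by
    rintro _ ⟨a, _, rfl⟩
    exact (hΓ _).2 ⟨a, rfl⟩
  intro g hg q
  obtain ⟨t, rfl⟩ := (Λ.map (LL γ)).mkQ_surjective q
  rw [← comp_comp Γ h3le t g]
  set G1 := comp Γ (Γ.mkQ t) g with hG1
  have hG1mem : G1 ∈ RingHom.ker (ep x) := hhom g hg _
  have hshift : G1 = AddMonoidAlgebra.single t (1 : ℂ) *
      (AddMonoidAlgebra.single (-t) (1 : ℂ) * G1) := by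
    rw [← mul_assoc, AddMonoidAlgebra.single_mul_single, add_neg_cancel, mul_one]
    show G1 = 1 * G1
    rw [one_mul]
  have hsupp : ∀ m ∈ (AddMonoidAlgebra.single (-t) (1 : ℂ) * G1).coeff.support,
      ∃ a, LL γ a = m := by
    intro m hm
    rw [← hΓ]
    have h4 : AddMonoidAlgebra.single (-t) (1 : ℂ) * G1
        = comp Γ (Γ.mkQ (t + -t)) (AddMonoidAlgebra.single (-t) (1 : ℂ) * g) := by
      rw [comp_shift]
    rw [h4] at hm
    have h5 := (comp_supp Γ _ _ m hm).1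
    rw [mkQ_eq_iff, add_neg_cancel, sub_zero] at h5
    exact h5
  obtain ⟨g', hg'⟩ := exists_lm γ _ hsupp
  have hker : g' ∈ RingHom.ker (ep fun i => xm x (γ i)) := by
    rw [RingHom.mem_ker]
    have h5 : ep x (AddMonoidAlgebra.single (-t) (1 : ℂ) * G1) = 0 := by
      rw [map_mul]
      have h6 : ep x G1 = 0 := hG1mem
      rw [h6, mul_zero]
    rw [← hg', ← ep_lm] at h5
    exact h5
  have h7 : comp (Λ.map (LL γ)) ((Λ.map (LL γ)).mkQ t) G1 = AddMonoidAlgebra.single t (1 : ℂ) *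
      lm γ (comp Λ (Λ.mkQ 0) g') := by
    rw [hshift, ← hg', lm_comp γ Λ (Λ.map (LL γ)) hΓ3, map_zero]
    have h8 := comp_shift (Λ.map (LL γ)) t 0 (lm γ g')
    rw [zero_add] at h8
    exact h8
  rw [h7]
  apply Ideal.mul_mem_left
  have h9 := hΛ g' hker
  rw [RingHom.mem_ker] at h9 ⊢
  have h10 : ep (fun i => xm x (γ i)) (comp Λ (Λ.mkQ 0) g') = 0 := h9
  rw [ep_lm] at h10
  exact h10

/-- a group of characters of rank `ρ` -/
def Stg {r : ℕ} (x : Fin N → Kˣ) (F : Fin r → Lau N) (e : Fin r → ℕ) (ρ : ℕ)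
    (γ : Fin ρ → Fin N → ℤ) (F' : Fin r → Lau ρ) : Prop :=
  ∃ (Γ : Submodule ℤ (Fin N → ℤ)) (B S : Fin r → Lau N) (a : Fin r → Fin N → ℤ),
      (∀ a, LL γ a = 0 → a = 0) ∧ (∀ m, m ∈ Γ ↔ ∃ a, LL γ a = m) ∧ Sat Γ ∧
      (∀ g ∈ RingHom.ker (ep x), ∀ q, comp Γ q g ∈ RingHom.ker (ep x)) ∧
      (∀ j, ep x (B j) ≠ 0 ∧ ep x (S j) ≠ 0 ∧ ep x (lm γ (F' j)) ≠ 0 ∧
        ep x (B j ^ e j * F j) =
          ep x (lm γ (F' j) * AddMonoidAlgebra.single (a j) 1 * S j ^ e j))

theorem stg_base {r : ℕ} (x : Fin N → Kˣ) (F : Fin r → Lau N) (e : Fin r → ℕ)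
    (hF : ∀ j, ep x (F j) ≠ 0) : Stg x F e N (fun i => Pi.single i (1 : ℤ)) F := by
  refine ⟨⊤, fun _ => 1, fun _ => 1, fun _ => 0, ?_, ?_, ?_, ?_, ?_⟩
  · intro a ha
    rwa [LL_id] at ha
  · intro m
    exact ⟨fun _ => ⟨m, LL_id m⟩, fun _ => trivial⟩
  · intro n m _ _
    trivial
  · intro g hg q
    obtain ⟨t, rfl⟩ := (⊤ : Submodule ℤ (Fin N → ℤ)).mkQ_surjective q
    have : (⊤ : Submodule ℤ (Fin N → ℤ)).mkQ t = (⊤ : Submodule ℤ (Fin N → ℤ)).mkQ 0 := by
      rw [mkQ_eq_iff]; trivial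
    rw [this, comp_of_supp _ (fun m _ => (Submodule.mem_top : m ∈ (⊤ : Submodule ℤ _)))]
    exact hg
  · intro j
    refine ⟨?_, ?_, ?_, ?_⟩
    · rw [map_one]; exact one_ne_zero
    · rw [map_one]; exact one_ne_zero
    · rw [lm_id]; exact hF j
    · rw [lm_id]
      show ep x (1 ^ e j * F j) = ep x (F j * 1 * 1 ^ e j)
      rw [one_pow, one_mul, mul_one, mul_one]

theorem stg_step {r : ℕ} (x : Fin N → Kˣ) (F : Fin r → Lau N) (e : Fin r → ℕ) (ρ : ℕ)
    (γ : Fin ρ → Fin N → ℤ) (F' : Fin r → Lau ρ) (h : Stg x F e ρ γ F')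
    (hred : RedL (fun i => xm x (γ i)) F' e) :
    ∃ ρ' < ρ, ∃ (γ' : Fin ρ' → Fin N → ℤ) (F'' : Fin r → Lau ρ'), Stg x F e ρ' γ' F'' := by
  classical
  obtain ⟨Γ, B, S, a, hinj, hΓ, hSat, hhom, hj⟩ := h
  obtain ⟨l, hl, hw, A, D, S1, a1, hr⟩ := hred
  set x' : Fin ρ → Kˣ := fun i => xm x (γ i) with hx'
  let Λ : Submodule ℤ (Fin ρ → ℤ) := LinearMap.ker (lf l)
  have hΛmem : ∀ m, m ∈ Λ ↔ ∑ i, l i * m i = 0 := by
    intro m
    rw [← lf_apply]
    exact LinearMap.mem_ker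
  have hΛker : ∀ g ∈ RingHom.ker (ep x'), comp Λ (Λ.mkQ 0) g ∈ RingHom.ker (ep x') := by
    intro g hg
    have := hw g hg 0
    rwa [wpart_eq] at this
  -- a basis of the kernel
  let b := Module.finBasis ℤ Λ
  let δ : Fin (Module.finrank ℤ Λ) → Fin ρ → ℤ := fun i => (b i : Fin ρ → ℤ)
  have hLval : ∀ a : Fin (Module.finrank ℤ Λ) → ℤ,
      LL δ a = ((∑ i, a i • b i : Λ) : Fin ρ → ℤ) := by
    intro a
    rw [LL_apply, Submodule.coe_sum]
    rfl
  have hδmem : ∀ a, LL δ a ∈ Λ := fun a => by rw [hLval]; exact Submodule.coe_mem _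
  have hδinj : ∀ a, LL δ a = 0 → a = 0 := by
    intro a ha
    rw [hLval] at ha
    have h1 : (∑ i, a i • b i : Λ) = 0 := Subtype.ext ha
    funext i
    exact Fintype.linearIndependent_iff.mp b.linearIndependent a h1 i
  have hδsurj : ∀ m ∈ Λ, ∃ a, LL δ a = m := by
    intro m hm
    refine ⟨fun i => b.repr ⟨m, hm⟩ i, ?_⟩
    rw [hLval, b.sum_repr]
  have hrank : Module.finrank ℤ Λ < ρ := by
    have hfr : Module.finrank ℤ Λ ≤ ρ := by
      have := Submodule.finrank_le Λ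
      rwa [Module.finrank_fin_fun] at this
    refine lt_of_le_of_ne hfr fun heq => hl ?_
    have h1 := Submodule.finrank_quotient_add_finrank Λ
    rw [Module.finrank_fin_fun, heq] at h1
    have h2 : Module.finrank ℤ ((Fin ρ → ℤ) ⧸ Λ) = 0 := by omega
    rw [Module.finrank_eq_zero_iff] at h2
    funext i
    obtain ⟨n, hn, hnm⟩ := h2 (Λ.mkQ (Pi.single i 1))
    rw [← map_smul] at hnm
    have h3 : n • Pi.single i (1 : ℤ) ∈ Λ := (Submodule.Quotient.mk_eq_zero Λ).mp hnm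
    rw [hΛmem] at h3
    have h4 : ∑ k, l k * (n • Pi.single i (1 : ℤ) : Fin ρ → ℤ) k = l i * n := by
      rw [Finset.sum_eq_single i]
      · simp
      · intro k _ hk
        simp [hk]
      · intro hk; exact absurd (Finset.mem_univ _) hk
    rw [h4] at h3
    exact (mul_eq_zero.1 h3).resolve_right hn
  -- the data of the step
  have key : ∀ j, ∃ (f : Lau (Module.finrank ℤ Λ)) (B' S' : Lau N) (a' : Fin N → ℤ),
      ep x B' ≠ 0 ∧ ep x S' ≠ 0 ∧ ep x (lm γ (lm δ f)) ≠ 0 ∧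
        ep x (B' ^ e j * F j) =
          ep x (lm γ (lm δ f) * AddMonoidAlgebra.single a' 1 * S' ^ e j) := by
    intro j
    obtain ⟨hB, hS, hF', heq⟩ := hj j
    obtain ⟨hD, hA, hD0, hA0, hS0, hDA⟩ := hr j
    have hD' : ∀ m ∈ (D j).coeff.support, m ∈ Λ := fun m hm => (hΛmem m).2 (hD m hm)
    have hA' : ∀ m ∈ (A j).coeff.support, m ∈ Λ := fun m hm => (hΛmem m).2 (hA m hm)
    rcases Nat.eq_zero_or_pos (e j) with he | he
    · -- infinite multiplicity
      rw [he, pow_zero, mul_one] at hDA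
      set h0 : Lau ρ := F' j * AddMonoidAlgebra.single (-(a1 j)) 1 with hh0
      have hu : D j * h0 - A j ∈ RingHom.ker (ep x') := by
        rw [RingHom.mem_ker, map_sub, hh0, ← mul_assoc, map_mul, hDA, map_mul, mul_assoc, ← map_mul,
          AddMonoidAlgebra.single_mul_single, add_neg_cancel, mul_one]
        have : (AddMonoidAlgebra.single 0 1 : Lau ρ) = 1 := rfl
        rw [this, map_one, mul_one, sub_self]
      have hu2 := hΛker _ hu
      rw [sub_eq_add_neg, comp_add, comp_neg, comp_mul_left Λ hD', comp_of_supp Λ hA'] at hu2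
      rw [RingHom.mem_ker, map_add, map_neg, map_mul] at hu2
      rw [RingHom.mem_ker, map_sub, map_mul] at hu
      have hcomp : ep x' (comp Λ (Λ.mkQ 0) h0) = ep x' h0 := by
        have h1 : ep x' (D j) * ep x' (comp Λ (Λ.mkQ 0) h0) = ep x' (D j) * ep x' h0 := by
          linear_combination hu2 - hu
        exact mul_left_cancel₀ hD0 h1
      have hs : ∀ m ∈ (comp Λ (Λ.mkQ 0) h0).coeff.support, ∃ a, LL δ a = m := by
        intro m hm
        apply hδsurj
        have h2 := (comp_supp Λ _ _ m hm).1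
        rw [mkQ_eq_iff, sub_zero] at h2
        exact h2
      obtain ⟨f, hf⟩ := exists_lm δ _ hs
      have hval : ep x (lm γ (lm δ f)) = ep x (lm γ (F' j)) *
          ep x (AddMonoidAlgebra.single (-(LL γ (a1 j))) 1) := by
        rw [hf, ← ep_lm, hcomp, hh0, map_mul, ep_lm, ep_lm, lm_single, map_neg]
      refine ⟨f, B j, S j, a j + LL γ (a1 j), hB, hS, ?_, ?_⟩
      · rw [hval]
        apply mul_ne_zero hF'
        rw [ep_single, one_smul]
        exact Units.ne_zero _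
      · have h2 : ep x (AddMonoidAlgebra.single (-(LL γ (a1 j))) 1) *
            ep x (AddMonoidAlgebra.single (a j + LL γ (a1 j)) 1) =
            ep x (AddMonoidAlgebra.single (a j) 1) := by
          rw [← map_mul, AddMonoidAlgebra.single_mul_single, mul_one]
          congr 2
          abel
        rw [heq, he, pow_zero, mul_one, mul_one, map_mul, map_mul, hval, mul_assoc, h2]
    · -- finite multiplicity
      have hs : ∀ m ∈ (D j ^ (e j - 1) * A j).coeff.support, ∃ a, LL δ a = m := by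
        intro m hm
        exact hδsurj m (supp_mul Λ (supp_pow Λ hD' _) hA' m hm)
      obtain ⟨f, hf⟩ := exists_lm δ _ hs
      have hval : ep x (lm γ (lm δ f)) = ep x (lm γ (D j)) ^ (e j - 1) * ep x (lm γ (A j)) := by
        rw [hf, map_mul, map_pow, map_mul, map_pow]
      have hDx : ep x (lm γ (D j)) ≠ 0 := by rw [← ep_lm]; exact hD0
      have hAx : ep x (lm γ (A j)) ≠ 0 := by rw [← ep_lm]; exact hA0
      have hSx : ep x (lm γ (S1 j)) ≠ 0 := by rw [← ep_lm]; exact hS0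
      have hDAx : ep x (lm γ (D j)) * ep x (lm γ (F' j)) = ep x (lm γ (A j)) *
          ep x (AddMonoidAlgebra.single (LL γ (a1 j)) 1) * ep x (lm γ (S1 j)) ^ e j := by
        have h1 := hDA
        rw [ep_lm, ep_lm] at h1
        simp only [map_mul, map_pow, lm_single] at h1
        exact h1
      refine ⟨f, B j * lm γ (D j), S j * lm γ (S1 j), a j + LL γ (a1 j), ?_, ?_, ?_, ?_⟩
      · rw [map_mul]; exact mul_ne_zero hB hDx
      · rw [map_mul]; exact mul_ne_zero hS hSx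
      · rw [hval]; exact mul_ne_zero (pow_ne_zero _ hDx) hAx
      · have h2 : ep x (AddMonoidAlgebra.single (a j + LL γ (a1 j)) 1) =
            ep x (AddMonoidAlgebra.single (a j) 1) *
              ep x (AddMonoidAlgebra.single (LL γ (a1 j)) 1) := by
          rw [← map_mul, AddMonoidAlgebra.single_mul_single, mul_one]
        simp only [map_mul, map_pow] at heq ⊢
        rw [hval, h2, mul_pow, mul_pow]
        have h3 : ep x (lm γ (D j)) ^ e j = ep x (lm γ (D j)) ^ (e j - 1) * ep x (lm γ (D j)) := by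
          rw [← pow_succ, Nat.sub_add_cancel he]
        calc ep x (B j) ^ e j * ep x (lm γ (D j)) ^ e j * ep x (F j)
            = ep x (lm γ (D j)) ^ e j * (ep x (B j) ^ e j * ep x (F j)) := by ring
          _ = ep x (lm γ (D j)) ^ (e j - 1) * (ep x (lm γ (D j)) * ep x (lm γ (F' j))) *
              ep x (AddMonoidAlgebra.single (a j) 1) * ep x (S j) ^ e j := by
            rw [heq, h3]; ring
          _ = _ := by rw [hDAx]; ring
  choose f B' S' a' hf using key
  refine ⟨Module.finrank ℤ Λ, hrank, fun i => LL γ (δ i), f, Λ.map (LL γ), B', S', a', ?_, ?_, ?_,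
    ?_, ?_⟩
  · intro c hc
    rw [LL_comp] at hc
    exact hδinj c (hinj _ hc)
  · intro m
    constructor
    · rintro ⟨c, hc, rfl⟩
      obtain ⟨d, hd⟩ := hδsurj c hc
      exact ⟨d, by rw [LL_comp, hd]⟩
    · rintro ⟨d, rfl⟩
      rw [LL_comp]
      exact Submodule.mem_map_of_mem (hδmem d)
  · intro n m hn hm
    have hmΓ : m ∈ Γ := by
      apply hSat n m hn
      obtain ⟨c, _, hc⟩ := hm
      rw [← hc]
      exact (hΓ _).2 ⟨c, rfl⟩
    obtain ⟨c, rfl⟩ := (hΓ m).1 hmΓ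
    obtain ⟨d, hd, hdc⟩ := hm
    have h1 : d = n • c := by
      have := hinj (d - n • c) (by rw [map_sub, map_smul, hdc, sub_self])
      exact sub_eq_zero.1 this
    apply Submodule.mem_map_of_mem
    rw [h1] at hd
    have h2 : n • c ∈ Λ := hd
    rw [LinearMap.mem_ker, map_smul, smul_eq_mul] at h2
    exact LinearMap.mem_ker.2 ((mul_eq_zero.1 h2).resolve_left hn)
  · exact hom_map x Γ γ hΓ hinj hhom Λ hΛker
  · intro j
    obtain ⟨h1, h2, h3, h4⟩ := hf j
    refine ⟨h1, h2, ?_, ?_⟩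
    · rw [lm_lm]; exact h3
    · rw [lm_lm]; exact h4

theorem t_min : St_min := by
  classical
  intro N r K _ _ x F e hF
  have hex : ∃ ρ, ∃ (γ : Fin ρ → Fin N → ℤ) (F' : Fin r → Lau ρ), Stg x F e ρ γ F' :=
    ⟨N, _, _, stg_base x F e hF⟩
  obtain ⟨γ, F', hst⟩ := Nat.find_spec hex
  have hmin : ¬ RedL (fun i => xm x (γ i)) F' e := by
    intro hred
    obtain ⟨ρ', hlt, h⟩ := stg_step x F e _ γ F' hst hred
    exact Nat.find_min hex hlt h
  obtain ⟨Γ, B, S, a, h1, h2, h3, h4, h5⟩ := hst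
  refine ⟨Nat.find hex, γ, Γ, F', B, S, a, h1, ?_, h3, h4, ep_lm x γ, h5, hmin⟩
  intro m
  rw [h2]
  constructor
  · rintro ⟨c, hc⟩; exact ⟨c, hc.symm⟩
  · rintro ⟨c, hc⟩; exact ⟨c, hc.symm⟩

end hom

end Pool.Agent.Y438.KS
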